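import Mathlib

/-!
# The sharper algebraic-connectivity inequality fails for balanced digraphs

A balanced digraph of order 10 with `x = α(Γ) = α(complement) ≤ 0.8658` violates
`x y (2 - x y) ≥ n (1 - x) (1 - y) (n - 2 - x - y)`.
-/

namespace Pool.Agent.Results.MP_2c58b6_co.SharperFails

open Matrix

/-- The complement of a digraph: exactly the arcs `(i, j)`, `i ≠ j`, that are not arcs of `Γ`. -/
def complement {n : ℕ} (Γ : Digraph (Fin n)) : Digraph (Fin n) where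
  Adj i j := i ≠ j ∧ ¬ Γ.Adj i j

open Classical in
/-- The adjacency matrix: the entry `(i, j)` is `1` if `(i, j)` is an arc and `0` otherwise. -/
noncomputable def adjMatrix {n : ℕ} (Γ : Digraph (Fin n)) : Matrix (Fin n) (Fin n) ℝ :=
  Matrix.of fun i j => if Γ.Adj i j then 1 else 0

/-- `Γ` has no loop. -/
def Loopless {n : ℕ} (Γ : Digraph (Fin n)) : Prop := ∀ i, ¬ Γ.Adj i i

/-- Every vertex has out-degree equal to its in-degree. -/
def Balanced {n : ℕ} (Γ : Digraph (Fin n)) : Prop :=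
  ∀ i, {j | Γ.Adj i j}.ncard = {j | Γ.Adj j i}.ncard

/-- The Laplacian matrix `L = D - A`, with `D` the diagonal matrix of the out-degrees. -/
noncomputable def laplacian {n : ℕ} (Γ : Digraph (Fin n)) : Matrix (Fin n) (Fin n) ℝ :=
  Matrix.diagonal (fun i => ({j | Γ.Adj i j}.ncard : ℝ)) - adjMatrix Γ

/-- The algebraic connectivity `α(Γ)`: the minimum of `xᵀ L x` over the unit vectors `x` orthogonal
to the all-ones vector. -/
noncomputable def algConnectivity {n : ℕ} (Γ : Digraph (Fin n)) : ℝ :=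
  sInf {t : ℝ | ∃ x : Fin n → ℝ, ∑ i, x i = 0 ∧ ∑ i, x i ^ 2 = 1 ∧ t = x ⬝ᵥ (laplacian Γ *ᵥ x)}

/-- The arcs of the example (as a Boolean function). -/
def arcB (i j : Fin 10) : Bool :=
  (i == 0 && j == 1) || (i == 1 && j == 2) || (i == 2 && j == 3) || (i == 3 && j == 0) ||
  (i == 0 && j == 2) || (i == 2 && j == 0) || (decide (i.val < 2) && decide (4 ≤ j.val)) ||
  (decide (4 ≤ i.val) && decide (j.val < 2))

/-- The example. -/
def ex : Digraph (Fin 10) where
  Adj i j := arcB i j = true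

theorem ncard_eq (p : Fin 10 → Bool) :
    ({j | p j = true} : Set (Fin 10)).ncard = (Finset.univ.filter fun j => p j = true).card := by
  rw [← Set.ncard_coe_finset]
  congr 1
  ext j
  simp

theorem out_ex (i : Fin 10) : ({j | ex.Adj i j} : Set (Fin 10)).ncard =
    (Finset.univ.filter fun j => arcB i j = true).card := ncard_eq (fun j => arcB i j)

theorem in_ex (i : Fin 10) : ({j | ex.Adj j i} : Set (Fin 10)).ncard =
    (Finset.univ.filter fun j => arcB j i = true).card := ncard_eq (fun j => arcB j i)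

theorem out_co (i : Fin 10) : ({j | (complement ex).Adj i j} : Set (Fin 10)).ncard =
    (Finset.univ.filter fun j => (!(i == j) && !(arcB i j)) = true).card := by
  rw [← ncard_eq]
  congr 1
  ext j
  simp [complement, ex]

theorem form_ex (x : Fin 10 → ℝ) : x ⬝ᵥ (laplacian ex *ᵥ x) =
    (x 0 - x 1)^2 / 2 +
    (x 0 - x 2)^2 +
    (x 0 - x 3)^2 / 2 +
    (x 0 - x 4)^2 +
    (x 0 - x 5)^2 +
    (x 0 - x 6)^2 +
    (x 0 - x 7)^2 +
    (x 0 - x 8)^2 +
    (x 0 - x 9)^2 +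
    (x 1 - x 2)^2 / 2 +
    (x 1 - x 4)^2 +
    (x 1 - x 5)^2 +
    (x 1 - x 6)^2 +
    (x 1 - x 7)^2 +
    (x 1 - x 8)^2 +
    (x 1 - x 9)^2 +
    (x 2 - x 3)^2 / 2 := by
  have h : ∀ i j, laplacian ex i j =
      ((if i = j then ((Finset.univ.filter fun j => arcB i j = true).card : ℤ) else 0) -
        (if arcB i j = true then 1 else 0) : ℤ) := by
    intro i j
    rw [laplacian, Matrix.sub_apply, Matrix.diagonal_apply, out_ex, adjMatrix, Matrix.of_apply]
    have hc : ex.Adj i j ↔ arcB i j = true := by simp [ex]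
    by_cases hb : arcB i j = true
    · rw [if_pos (hc.mpr hb), if_pos hb]; push_cast; rfl
    · rw [if_neg (fun hh => hb (hc.mp hh)), if_neg hb]; push_cast; rfl
  simp only [dotProduct, mulVec, h]
  have e : ∀ i j : Fin 10, ((if i = j then ((Finset.univ.filter fun j => arcB i j = true).card : ℤ)
        else 0) - (if arcB i j = true then 1 else 0) : ℤ) =
      (![![8, -1, -1, 0, -1, -1, -1, -1, -1, -1],
        ![0, 7, -1, 0, -1, -1, -1, -1, -1, -1],
        ![-1, 0, 2, -1, 0, 0, 0, 0, 0, 0],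
        ![-1, 0, 0, 1, 0, 0, 0, 0, 0, 0],
        ![-1, -1, 0, 0, 2, 0, 0, 0, 0, 0],
        ![-1, -1, 0, 0, 0, 2, 0, 0, 0, 0],
        ![-1, -1, 0, 0, 0, 0, 2, 0, 0, 0],
        ![-1, -1, 0, 0, 0, 0, 0, 2, 0, 0],
        ![-1, -1, 0, 0, 0, 0, 0, 0, 2, 0],
        ![-1, -1, 0, 0, 0, 0, 0, 0, 0, 2]] : Fin 10 → Fin 10 → ℤ) i j := by decide
  simp only [e]
  simp [Fin.sum_univ_succ]
  ring

theorem form_co (x : Fin 10 → ℝ) : x ⬝ᵥ (laplacian (complement ex) *ᵥ x) =
    (x 0 - x 1)^2 / 2 +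
    (x 0 - x 3)^2 / 2 +
    (x 1 - x 2)^2 / 2 +
    (x 1 - x 3)^2 +
    (x 2 - x 3)^2 / 2 +
    (x 2 - x 4)^2 +
    (x 2 - x 5)^2 +
    (x 2 - x 6)^2 +
    (x 2 - x 7)^2 +
    (x 2 - x 8)^2 +
    (x 2 - x 9)^2 +
    (x 3 - x 4)^2 +
    (x 3 - x 5)^2 +
    (x 3 - x 6)^2 +
    (x 3 - x 7)^2 +
    (x 3 - x 8)^2 +
    (x 3 - x 9)^2 +
    (x 4 - x 5)^2 +
    (x 4 - x 6)^2 +
    (x 4 - x 7)^2 +
    (x 4 - x 8)^2 +
    (x 4 - x 9)^2 +
    (x 5 - x 6)^2 +
    (x 5 - x 7)^2 +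
    (x 5 - x 8)^2 +
    (x 5 - x 9)^2 +
    (x 6 - x 7)^2 +
    (x 6 - x 8)^2 +
    (x 6 - x 9)^2 +
    (x 7 - x 8)^2 +
    (x 7 - x 9)^2 +
    (x 8 - x 9)^2 := by
  have h : ∀ i j, laplacian (complement ex) i j =
      ((if i = j then ((Finset.univ.filter fun j => (!(i == j) && !(arcB i j)) = true).card : ℤ) else 0) -
        (if (!(i == j) && !(arcB i j)) = true then 1 else 0) : ℤ) := by
    intro i j
    rw [laplacian, Matrix.sub_apply, Matrix.diagonal_apply, out_co, adjMatrix, Matrix.of_apply]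
    have hc : (complement ex).Adj i j ↔ (!(i == j) && !(arcB i j)) = true := by simp [ex, complement]
    by_cases hb : (!(i == j) && !(arcB i j)) = true
    · rw [if_pos (hc.mpr hb), if_pos hb]; push_cast; rfl
    · rw [if_neg (fun hh => hb (hc.mp hh)), if_neg hb]; push_cast; rfl
  simp only [dotProduct, mulVec, h]
  have e : ∀ i j : Fin 10, ((if i = j then ((Finset.univ.filter fun j => (!(i == j) && !(arcB i j)) = true).card : ℤ)
        else 0) - (if (!(i == j) && !(arcB i j)) = true then 1 else 0) : ℤ) =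
      (![![1, 0, 0, -1, 0, 0, 0, 0, 0, 0],
        ![-1, 2, 0, -1, 0, 0, 0, 0, 0, 0],
        ![0, -1, 7, 0, -1, -1, -1, -1, -1, -1],
        ![0, -1, -1, 8, -1, -1, -1, -1, -1, -1],
        ![0, 0, -1, -1, 7, -1, -1, -1, -1, -1],
        ![0, 0, -1, -1, -1, 7, -1, -1, -1, -1],
        ![0, 0, -1, -1, -1, -1, 7, -1, -1, -1],
        ![0, 0, -1, -1, -1, -1, -1, 7, -1, -1],
        ![0, 0, -1, -1, -1, -1, -1, -1, 7, -1],
        ![0, 0, -1, -1, -1, -1, -1, -1, -1, 7]] : Fin 10 → Fin 10 → ℤ) i j := by decide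
  simp only [e]
  simp [Fin.sum_univ_succ]
  ring

theorem balanced_ex : Balanced ex := by
  intro i
  rw [out_ex, in_ex]
  revert i
  decide

theorem loopless_ex : Loopless ex := by
  intro i h
  have : ∀ i : Fin 10, arcB i i = false := by decide
  have h' : arcB i i = true := h
  rw [this i] at h'
  exact Bool.false_ne_true h'

/-- An upper bound for the algebraic connectivity from a test vector. -/
theorem alg_le {Γ : Digraph (Fin 10)} (hnn : ∀ x : Fin 10 → ℝ, 0 ≤ x ⬝ᵥ (laplacian Γ *ᵥ x))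
    (v : Fin 10 → ℝ) (hv : ∑ i, v i = 0) (q : ℝ) (hpos : 0 < ∑ i, v i ^ 2)
    (hq : v ⬝ᵥ (laplacian Γ *ᵥ v) = q * ∑ i, v i ^ 2) :
    0 ≤ algConnectivity Γ ∧ algConnectivity Γ ≤ q := by
  have hbdd : ∀ t ∈ {t : ℝ | ∃ x : Fin 10 → ℝ, ∑ i, x i = 0 ∧ ∑ i, x i ^ 2 = 1 ∧
      t = x ⬝ᵥ (laplacian Γ *ᵥ x)}, 0 ≤ t := by
    rintro t ⟨x, -, -, rfl⟩
    exact hnn x
  have hmem : q ∈ {t : ℝ | ∃ x : Fin 10 → ℝ, ∑ i, x i = 0 ∧ ∑ i, x i ^ 2 = 1 ∧
      t = x ⬝ᵥ (laplacian Γ *ᵥ x)} := by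
    set S := ∑ i, v i ^ 2 with hS
    have hsq : (Real.sqrt S) ^ 2 = S := Real.sq_sqrt hpos.le
    have hs0 : 0 < Real.sqrt S := Real.sqrt_pos.mpr hpos
    refine ⟨(Real.sqrt S)⁻¹ • v, ?_, ?_, ?_⟩
    · simp only [Pi.smul_apply, smul_eq_mul]
      rw [← Finset.mul_sum, hv, mul_zero]
    · simp only [Pi.smul_apply, smul_eq_mul, mul_pow]
      rw [← Finset.mul_sum, ← hS, inv_pow, hsq]
      exact inv_mul_cancel₀ hpos.ne'
    · rw [Matrix.mulVec_smul, dotProduct_smul, smul_dotProduct, hq, smul_eq_mul, smul_eq_mul]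
      have : (Real.sqrt S)⁻¹ * ((Real.sqrt S)⁻¹ * (q * S)) = q * (((Real.sqrt S)^2)⁻¹ * S) := by
        rw [← inv_pow]; ring
      rw [this, hsq, inv_mul_cancel₀ hpos.ne', mul_one]
  exact ⟨le_csInf ⟨q, hmem⟩ hbdd, csInf_le ⟨0, hbdd⟩ hmem⟩

/-- The inequality `xy(2 - xy) ≥ n(1-x)(1-y)(n-2-x-y)` fails for some balanced digraph. -/
theorem result : ¬ ∀ (n : ℕ), 2 ≤ n → ∀ Γ : Digraph (Fin n), Loopless Γ → Balanced Γ →
    algConnectivity Γ ≤ 1 → algConnectivity (complement Γ) ≤ 1 →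
    n * (1 - algConnectivity Γ) * (1 - algConnectivity (complement Γ)) *
        (n - 2 - algConnectivity Γ - algConnectivity (complement Γ)) ≤
      algConnectivity Γ * algConnectivity (complement Γ) *
        (2 - algConnectivity Γ * algConnectivity (complement Γ)) := by
  intro H
  have h1 := alg_le (Γ := ex) (fun x => by rw [form_ex]; positivity)
    ![-1, -3, 7, 21, -4, -4, -4, -4, -4, -4] (by simp [Fin.sum_univ_succ]; norm_num) (258/298)
    (by simp [Fin.sum_univ_succ]; norm_num)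
    (by rw [form_ex]; simp [Fin.sum_univ_succ]; norm_num)
  have h2 := alg_le (Γ := complement ex) (fun x => by rw [form_co]; positivity)
    ![21, 7, -3, -1, -4, -4, -4, -4, -4, -4] (by simp [Fin.sum_univ_succ]; norm_num) (258/298)
    (by simp [Fin.sum_univ_succ]; norm_num)
    (by rw [form_co]; simp [Fin.sum_univ_succ]; norm_num)
  set x := algConnectivity ex
  set y := algConnectivity (complement ex)
  have h := H 10 (by norm_num) ex loopless_ex balanced_ex (by linarith [h1.2]) (by linarith [h2.2])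
  push_cast at h
  obtain ⟨hx0, hx1⟩ := h1
  obtain ⟨hy0, hy1⟩ := h2
  have e1 : x ≤ 0.87 := by linarith
  have e2 : y ≤ 0.87 := by linarith
  have e3 : x * y ≤ 0.7569 := by nlinarith
  have e4 : x * y * (2 - x * y) ≤ 0.7569 * (2 - 0.7569) := by nlinarith
  have e5 : (0.0169 : ℝ) ≤ (1 - x) * (1 - y) := by nlinarith
  have e6 : (0.0169 : ℝ) * 6.26 ≤ (1 - x) * (1 - y) * (10 - 2 - x - y) := by nlinarith
  nlinarith

end Pool.Agent.Results.MP_2c58b6_co.SharperFails
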